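import Pool.Agent.H95.PD.Rank

/-!
# Project PD: negative spectral projections: inertia, congruence, block sums, constant index
(helper95)
-/

open Matrix
open scoped ComplexOrder MatrixOrder ContDiff Topology
open Pool.Agent.H95.PD

namespace Pool.Agent.PD4

variable {ι κ l : Type*} [Fintype ι] [DecidableEq ι] [Fintype κ] [DecidableEq κ] {n : ℕ}

section pointwise

/-- off the negative space the form is positive -/
lemma negP_pos {N : Matrix ι ι ℂ} (hN : N.IsHermitian) (hd : N.det ≠ 0)
    {v : ι → ℂ} (hv : negP N *ᵥ v = 0) (h0 : v ≠ 0) : 0 < star v ⬝ᵥ (N *ᵥ v) := by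
  have h1 : N *ᵥ v = absM N *ᵥ v := by
    conv_lhs => rw [← polar hN hd]
    rw [← Matrix.mulVec_mulVec, Matrix.sub_mulVec, Matrix.one_mulVec, Matrix.smul_mulVec, hv,
      smul_zero, sub_zero]
  rw [h1]
  exact (absM_posDef hN hd).dotProduct_mulVec_pos h0

/-- a vector without negative component and with nonpositive value is `0` -/
lemma negP_eq_zero_of_nonpos {N : Matrix ι ι ℂ} (hN : N.IsHermitian) (hd : N.det ≠ 0)
    {v : ι → ℂ} (hv : negP N *ᵥ v = 0) (h : (star v ⬝ᵥ (N *ᵥ v)).re ≤ 0) : v = 0 := by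
  by_contra h0
  have h1 := negP_pos hN hd hv h0
  have h2 := (Complex.lt_def.mp h1).1
  rw [Complex.zero_re] at h2
  exact absurd h (not_le_of_gt h2)

omit [DecidableEq ι] [Fintype κ] [DecidableEq κ] in
lemma rank_le_of_ker {m : Type*} {X : Matrix κ ι ℂ} {Q : Matrix m ι ℂ}
    (h : ∀ v, X *ᵥ v = 0 → Q *ᵥ v = 0) : Q.rank ≤ X.rank := by
  have h1 := LinearMap.finrank_range_add_finrank_ker X.mulVecLin
  have h2 := LinearMap.finrank_range_add_finrank_ker Q.mulVecLin
  have h3 : LinearMap.ker X.mulVecLin ≤ LinearMap.ker Q.mulVecLin := by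
    intro v hv
    rw [LinearMap.mem_ker, Matrix.mulVecLin_apply] at hv ⊢
    exact h v hv
  have h4 := Submodule.finrank_mono h3
  unfold Matrix.rank
  omega

/-- **inertia**: `N = Rᴴ M R` has at most as many negative directions as `M` -/
lemma rank_negP_le {M : Matrix κ κ ℂ} {N : Matrix ι ι ℂ} {R : Matrix κ ι ℂ}
    (hM : M.IsHermitian) (hdM : M.det ≠ 0) (hN : N.IsHermitian) (hdN : N.det ≠ 0)
    (h : Rᴴ * M * R = N) : (negP N).rank ≤ (negP M).rank := by
  have h1 : (negP N).rank ≤ (negP M * (R * negP N)).rank := by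
    apply rank_le_of_ker
    intro v hv
    refine negP_inj hM hdM hN hdN h (v := negP N *ᵥ v) ?_ ?_
    · rw [Matrix.mulVec_mulVec, negP_idem hN hdN]
    · rw [← hv]; simp only [Matrix.mulVec_mulVec]
  exact h1.trans (Matrix.rank_mul_le_left _ _)

/-- Sylvester's law of inertia for invertible congruences -/
lemma rank_negP_congr {M : Matrix κ κ ℂ} {N : Matrix ι ι ℂ} {A : Matrix κ ι ℂ}
    {B : Matrix ι κ ℂ} (hM : M.IsHermitian) (hdM : M.det ≠ 0) (hN : N.IsHermitian)
    (hdN : N.det ≠ 0) (h : Aᴴ * M * A = N) (hAB : A * B = 1) :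
    (negP N).rank = (negP M).rank := by
  refine le_antisymm (rank_negP_le hM hdM hN hdN h) (rank_negP_le (R := B) hN hdN hM hdM ?_)
  have hBA : Bᴴ * Aᴴ = 1 := by rw [← Matrix.conjTranspose_mul, hAB, Matrix.conjTranspose_one]
  calc Bᴴ * N * B = (Bᴴ * Aᴴ) * M * (A * B) := by rw [← h]; simp only [Matrix.mul_assoc]
    _ = M := by rw [hBA, hAB, Matrix.one_mul, Matrix.mul_one]

/-- the negative projection of a hermitian involution -/
lemma negP_of_sq_one {N : Matrix ι ι ℂ} (h2 : N * N = 1) :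
    negP N = (1 / 2 : ℂ) • (1 - N) := by
  have hP : (1 / 2 : ℂ) • (1 - N) * ((1 / 2 : ℂ) • (1 - N)) = (1 / 2 : ℂ) • (1 - N) := by
    rw [Matrix.smul_mul, Matrix.mul_smul, smul_smul, Matrix.sub_mul, Matrix.mul_sub,
      Matrix.mul_sub, h2, Matrix.one_mul, Matrix.one_mul, Matrix.mul_one]
    have : (1 : Matrix ι ι ℂ) - N - (N - 1) = (2 : ℂ) • (1 - N) := by rw [two_smul]; abel
    rw [this, smul_smul]; norm_num
  have h1 : (1 : Matrix ι ι ℂ) - (2 : ℂ) • ((1 / 2 : ℂ) • (1 - N)) = N := by
    rw [smul_smul]; norm_num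
  exact negP_unique Matrix.PosDef.one hP (by rw [h1, Matrix.one_mul]) (by rw [h1, Matrix.mul_one])

lemma negP_diagonal {d : ι → ℂ} (h : ∀ i, d i = 1 ∨ d i = -1) :
    negP (Matrix.diagonal d) = Matrix.diagonal fun i => if d i = -1 then 1 else 0 := by
  rw [negP_of_sq_one]
  · ext i j
    by_cases hij : i = j
    · subst hij
      rcases h i with h1 | h1
      · simp [h1]; norm_num
      · simp [h1]; norm_num
    · simp [hij]
  · rw [Matrix.diagonal_mul_diagonal, ← Matrix.diagonal_one]
    congr 1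
    funext i
    rcases h i with h1 | h1 <;> rw [h1] <;> norm_num

end pointwise

section index

omit [Fintype ι] [DecidableEq ι] in
lemma mev_continuous (p : Matrix ι ι (Sm n)) : Continuous fun x => mev x p :=
  continuous_pi fun i => continuous_pi fun j => (p i j).2.1.continuous

omit [DecidableEq ι] in
/-- an idempotent over `Sm n` has constant rank -/
theorem exists_trace (p : Matrix ι ι (Sm n)) (hp : p * p = p) :
    ∃ r : ℕ, (∀ x, (mev x p).rank = r) ∧ ∀ x, (mev x p).trace = r := by
  classical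
  have hx : ∀ x, (mev x p).trace = ((mev x p).rank : ℂ) := fun x =>
    trace_eq_rank (by rw [← mev_mul, hp])
  have hc : Continuous fun x => ((mev x p).rank : ℝ) := by
    have h1 : (fun x => ((mev x p).rank : ℝ)) = fun x => ((mev x p).trace).re := by
      funext x; rw [hx x]; simp
    rw [h1]
    exact Complex.continuous_re.comp (mev_continuous p).matrix_trace
  have hc' : Continuous fun x => (mev x p).rank :=
    Nat.isClosedEmbedding_coe_real.isEmbedding.continuous_iff.mpr hc
  refine ⟨(mev 0 p).rank, fun x => ?_, fun x => ?_⟩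
  · exact PreconnectedSpace.constant inferInstance hc'
  · rw [hx x]
    congr 1
    exact PreconnectedSpace.constant inferInstance hc'

omit [DecidableEq ι] in
/-- traces of an idempotent at two points agree -/
lemma trace_const (p : Matrix ι ι (Sm n)) (hp : p * p = p) (x y : Fin n → ℝ) :
    (mev x p).trace = (mev y p).trace := by
  obtain ⟨r, -, hr⟩ := exists_trace p hp
  rw [hr x, hr y]

end index

section congruence

/-- **Murray–von Neumann equivalence of negative projections**: general form -/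
theorem negProj_mvn {M : Matrix κ κ (Sm n)} {N : Matrix ι ι (Sm n)} (R : Matrix κ ι (Sm n))
    (hM : Mᴴ = M) (hu : IsUnit M) (hN : Nᴴ = N) (hu' : IsUnit N) (h : Rᴴ * M * R = N)
    (x0 : Fin n → ℝ) (htr : (negP (mev x0 M)).rank = (negP (mev x0 N)).rank) :
    ∃ (X : Matrix κ ι (Sm n)) (Y : Matrix ι κ (Sm n)),
      negProj M hM hu * X = X ∧ X * negProj N hN hu' = X ∧ negProj N hN hu' * Y = Y ∧
        Y * negProj M hM hu = Y ∧ Y * X = negProj N hN hu' ∧ X * Y = negProj M hM hu := by
  set p := negProj M hM hu with hp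
  set q := negProj N hN hu' with hq
  have hpp : p * p = p := negProj_idem M hM hu
  have hqq : q * q = q := negProj_idem N hN hu'
  have h1 : p * (p * R * q) = p * R * q := by
    rw [← Matrix.mul_assoc, ← Matrix.mul_assoc, hpp]
  have h2 : p * R * q * q = p * R * q := by rw [Matrix.mul_assoc, hqq]
  have htr' : ∀ x, (mev x p).trace = (mev x q).trace := by
    intro x
    rw [trace_const p hpp x x0, trace_const q hqq x x0,
      trace_eq_rank (P := mev x0 p) (by rw [← mev_mul, hpp]),
      trace_eq_rank (P := mev x0 q) (by rw [← mev_mul, hqq])]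
    exact congrArg _ htr
  obtain ⟨Y, e1, e2, e3, e4⟩ := mvn_of_pointwise (X := p * R * q) hpp (negProj_herm M hM hu) hqq
    (negProj_herm N hN hu') h1 h2 (by
      intro x v hv hv'
      refine negP_inj (M := mev x M) (N := mev x N) (R := mev x R) (mev_isHermitian hM x)
        (mev_det_ne_zero hu x) (mev_isHermitian hN x) (mev_det_ne_zero hu' x) ?_ hv ?_
      · rw [← mev_conjTranspose, ← mev_mul, ← mev_mul, h]
      · rw [mev_mul, mev_mul, ← Matrix.mulVec_mulVec, hv, ← Matrix.mulVec_mulVec] at hv'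
        exact hv') htr'
  exact ⟨p * R * q, Y, h1, h2, e1, e2, e3, e4⟩

/-- Murray–von Neumann equivalence of the negative projections of congruent matrices -/
theorem negProj_mvn_congr {M : Matrix κ κ (Sm n)} {N : Matrix ι ι (Sm n)}
    (A : Matrix κ ι (Sm n)) (B : Matrix ι κ (Sm n)) (hAB : A * B = 1)
    (hM : Mᴴ = M) (hu : IsUnit M) (hN : Nᴴ = N) (hu' : IsUnit N) (h : Aᴴ * M * A = N) :
    ∃ (X : Matrix κ ι (Sm n)) (Y : Matrix ι κ (Sm n)),
      negProj M hM hu * X = X ∧ X * negProj N hN hu' = X ∧ negProj N hN hu' * Y = Y ∧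
        Y * negProj M hM hu = Y ∧ Y * X = negProj N hN hu' ∧ X * Y = negProj M hM hu := by
  refine negProj_mvn A hM hu hN hu' h 0 ?_
  symm
  refine rank_negP_congr (A := mev 0 A) (B := mev 0 B) (mev_isHermitian hM 0)
    (mev_det_ne_zero hu 0) (mev_isHermitian hN 0) (mev_det_ne_zero hu' 0) ?_ ?_
  · rw [← mev_conjTranspose, ← mev_mul, ← mev_mul, h]
  · rw [← mev_mul, hAB, mev_one]

end congruence

section special

variable (M : Matrix ι ι (Sm n)) (hM : Mᴴ = M) (hu : IsUnit M)

/-- the negative projection of a hermitian involution -/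
lemma negProj_of_sq_one (h2 : M * M = 1) : negProj M hM hu = (1 / 2 : ℂ) • (1 - M) :=
  mev_injective fun x => by
    rw [mev_negProj, mev_smul, mev_sub, mev_one]
    exact negP_of_sq_one (by rw [← mev_mul, h2, mev_one])

lemma negProj_one (h1 : (1 : Matrix ι ι (Sm n))ᴴ = 1) (hu : IsUnit (1 : Matrix ι ι (Sm n))) :
    negProj 1 h1 hu = 0 := by
  rw [negProj_of_sq_one _ _ _ (Matrix.mul_one _), sub_self, smul_zero]

lemma negProj_neg_one (h1 : (-1 : Matrix ι ι (Sm n))ᴴ = -1)
    (hu : IsUnit (-1 : Matrix ι ι (Sm n))) : negProj (-1) h1 hu = 1 := by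
  rw [negProj_of_sq_one _ _ _ (by rw [Matrix.neg_mul, Matrix.mul_neg, Matrix.mul_one, neg_neg])]
  have : (1 : Matrix ι ι (Sm n)) - -1 = (2 : ℂ) • 1 := by rw [two_smul]; abel
  rw [this, smul_smul]; norm_num

/-- unitary conjugation -/
lemma negProj_unitary (U : Matrix ι κ (Sm n)) (h1 : U * Uᴴ = 1) (h2 : Uᴴ * U = 1)
    (hM' : (Uᴴ * M * U)ᴴ = Uᴴ * M * U) (hu' : IsUnit (Uᴴ * M * U)) :
    negProj (Uᴴ * M * U) hM' hu' = Uᴴ * negProj M hM hu * U := by
  have key : (1 : Matrix κ κ (Sm n)) - (2 : ℂ) • (Uᴴ * negProj M hM hu * U) =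
      Uᴴ * (1 - (2 : ℂ) • negProj M hM hu) * U := by
    rw [Matrix.mul_sub, Matrix.sub_mul, Matrix.mul_one, h2, Matrix.mul_smul, Matrix.smul_mul]
  refine negProj_unique _ _ _ (K := Uᴴ * absSm M hM hu * U) ?_ ?_ ?_ ?_
  · intro x
    rw [mev_mul, mev_mul, mev_conjTranspose]
    refine (absSm_posDef M hM hu x).conjTranspose_mul_mul_same ?_
    have h3 : (mev x U)ᴴ * mev x U = 1 := by rw [← mev_conjTranspose, ← mev_mul, h2, mev_one]
    intro v w hvw
    have h4 : (mev x U)ᴴ *ᵥ (mev x U *ᵥ v) = (mev x U)ᴴ *ᵥ (mev x U *ᵥ w) := by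
      exact congrArg _ hvw
    rw [Matrix.mulVec_mulVec, Matrix.mulVec_mulVec, h3, Matrix.one_mulVec,
      Matrix.one_mulVec] at h4
    exact h4
  · calc Uᴴ * negProj M hM hu * U * (Uᴴ * negProj M hM hu * U)
        = Uᴴ * (negProj M hM hu * (U * Uᴴ) * negProj M hM hu) * U := by
          simp only [Matrix.mul_assoc]
      _ = _ := by rw [h1, Matrix.mul_one, negProj_idem]
  · rw [key]
    calc Uᴴ * absSm M hM hu * U * (Uᴴ * (1 - (2 : ℂ) • negProj M hM hu) * U)
        = Uᴴ * (absSm M hM hu * (U * Uᴴ) * (1 - (2 : ℂ) • negProj M hM hu)) * U := by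
          simp only [Matrix.mul_assoc]
      _ = _ := by rw [h1, Matrix.mul_one, abs_mul_negProj]
  · rw [key]
    calc Uᴴ * (1 - (2 : ℂ) • negProj M hM hu) * U * (Uᴴ * absSm M hM hu * U)
        = Uᴴ * ((1 - (2 : ℂ) • negProj M hM hu) * (U * Uᴴ) * absSm M hM hu) * U := by
          simp only [Matrix.mul_assoc]
      _ = _ := by rw [h1, Matrix.mul_one, negProj_mul_abs]

omit [DecidableEq ι] [DecidableEq κ] in
lemma posDef_fromBlocks {A : Matrix ι ι ℂ} {B : Matrix κ κ ℂ} (hA : A.PosDef) (hB : B.PosDef) :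
    (Matrix.fromBlocks A 0 0 B).PosDef := by
  refine Matrix.PosDef.of_dotProduct_mulVec_pos ?_ ?_
  · exact Matrix.IsHermitian.fromBlocks hA.isHermitian (by simp) hB.isHermitian
  · intro v hv
    obtain ⟨a, b, rfl⟩ : ∃ a b, v = Sum.elim a b := ⟨v ∘ Sum.inl, v ∘ Sum.inr, by simp⟩
    have h1 : star (Sum.elim a b) = Sum.elim (star a) (star b) := by
      funext i; rcases i with i | i <;> rfl
    rw [Matrix.fromBlocks_mulVec, h1, sumElim_dotProduct_sumElim]
    simp only [Matrix.zero_mulVec, add_zero, zero_add, Sum.elim_comp_inl, Sum.elim_comp_inr]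
    rcases eq_or_ne a 0 with ha | ha
    · have hb : b ≠ 0 := by
        rintro rfl
        apply hv
        funext i; rcases i with i | i <;> simp [ha]
      rw [ha]
      simpa using hB.dotProduct_mulVec_pos hb
    · exact add_pos_of_pos_of_nonneg (hA.dotProduct_mulVec_pos ha)
        (hB.posSemidef.dotProduct_mulVec_nonneg b)

/-- negative projection of a block sum -/
theorem negProj_fromBlocks (N : Matrix κ κ (Sm n)) (hN : Nᴴ = N) (huN : IsUnit N)
    (hMN : (Matrix.fromBlocks M 0 0 N)ᴴ = Matrix.fromBlocks M 0 0 N)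
    (huMN : IsUnit (Matrix.fromBlocks M 0 0 N)) :
    negProj (Matrix.fromBlocks M 0 0 N) hMN huMN =
      Matrix.fromBlocks (negProj M hM hu) 0 0 (negProj N hN huN) := by
  have key : (1 : Matrix (ι ⊕ κ) (ι ⊕ κ) (Sm n)) -
      (2 : ℂ) • Matrix.fromBlocks (negProj M hM hu) 0 0 (negProj N hN huN) =
      Matrix.fromBlocks (1 - (2 : ℂ) • negProj M hM hu) 0 0 (1 - (2 : ℂ) • negProj N hN huN) := by
    rw [← Matrix.fromBlocks_one, Matrix.fromBlocks_smul, sub_eq_add_neg, Matrix.fromBlocks_neg,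
      Matrix.fromBlocks_add]
    simp [sub_eq_add_neg]
  refine negProj_unique _ _ _ (K := Matrix.fromBlocks (absSm M hM hu) 0 0 (absSm N hN huN))
    ?_ ?_ ?_ ?_
  · intro x
    have h1 : mev x (Matrix.fromBlocks (absSm M hM hu) 0 0 (absSm N hN huN)) =
        Matrix.fromBlocks (mev x (absSm M hM hu)) 0 0 (mev x (absSm N hN huN)) := by
      ext i j
      rcases i with i | i <;> rcases j with j | j <;> rfl
    rw [h1]
    exact posDef_fromBlocks (absSm_posDef M hM hu x) (absSm_posDef N hN huN x)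
  · rw [Matrix.fromBlocks_multiply, negProj_idem, negProj_idem]; simp
  · rw [key, Matrix.fromBlocks_multiply, abs_mul_negProj, abs_mul_negProj]; simp
  · rw [key, Matrix.fromBlocks_multiply, negProj_mul_abs, negProj_mul_abs]; simp

end special

section trivial

/-- **the range bundle of a pointwise injective matrix is trivial** -/
theorem ranProj_trivial (A : Matrix ι κ (Sm n)) (hinj : ∀ x v, mev x A *ᵥ v = 0 → v = 0)
    (P : Matrix ι ι (Sm n)) (hP : IsRanProj A P) :
    ∃ B : Matrix κ ι (Sm n), B * P = B ∧ B * A = 1 ∧ A * B = P := by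
  have htr : ∀ x, (mev x P).trace = (mev x (1 : Matrix κ κ (Sm n))).trace := by
    intro x
    rw [mev_one, Matrix.trace_one, trace_eq_rank (by rw [← mev_mul, hP.idem])]
    congr 1
    apply le_antisymm
    · obtain ⟨B, hB⟩ := hP.factor
      rw [hB, mev_mul]
      exact (Matrix.rank_mul_le_left _ _).trans (Matrix.rank_le_card_width _)
    · have h1 : (1 : Matrix κ κ ℂ).rank ≤ (mev x A).rank := by
        apply rank_le_of_ker
        intro v hv
        rw [Matrix.one_mulVec]; exact hinj x v hv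
      rw [Matrix.rank_one] at h1
      refine h1.trans ?_
      have h2 : mev x A = mev x P * mev x A := by rw [← mev_mul, hP.fix]
      rw [h2]
      exact Matrix.rank_mul_le_left _ _
  obtain ⟨Y, -, h2, h3, h4⟩ := mvn_of_pointwise (X := A) hP.idem hP.herm
    (q := (1 : Matrix κ κ (Sm n))) (Matrix.mul_one 1) Matrix.conjTranspose_one hP.fix
    (Matrix.mul_one A) (fun x v _ hv => hinj x v hv) htr
  exact ⟨Y, h2, h3, h4⟩

/-- a pointwise injective matrix has a range projection (which is Murray–von Neumann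
equivalent to `1`) -/
theorem exists_ranProj_of_inj (A : Matrix ι κ (Sm n)) (hinj : ∀ x v, mev x A *ᵥ v = 0 → v = 0) :
    ∃ (P : Matrix ι ι (Sm n)) (B : Matrix κ ι (Sm n)), IsRanProj A P ∧ B * P = B ∧ B * A = 1 ∧
      A * B = P := by
  obtain ⟨P, hP, -⟩ := exists_ranProj A (Fintype.card κ) (by
    intro x
    apply le_antisymm (Matrix.rank_le_card_width _)
    have h1 : (1 : Matrix κ κ ℂ).rank ≤ (mev x A).rank := by
      apply rank_le_of_ker
      intro v hv
      rw [Matrix.one_mulVec]; exact hinj x v hv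
    rwa [Matrix.rank_one] at h1)
  obtain ⟨B, h1, h2, h3⟩ := ranProj_trivial A hinj P hP
  exact ⟨P, B, hP, h1, h2, h3⟩

omit [DecidableEq κ] in
/-- the range projection of a Real matrix is Real -/
lemma IsRanProj.real {A : Matrix ι κ (Sm n)} {P : Matrix ι ι (Sm n)} (h : IsRanProj A P)
    (hA : MReal A) : MReal P := by
  have hk : IsKerProj Aᴴ (1 - P) := by
    obtain ⟨B, hB⟩ := h.factor
    refine ⟨?_, ?_, ?_, Bᴴ, ?_⟩
    · rw [Matrix.sub_mul, Matrix.mul_sub, Matrix.mul_sub, Matrix.one_mul, Matrix.mul_one,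
        Matrix.one_mul, h.idem]; abel
    · rw [Matrix.conjTranspose_sub, Matrix.conjTranspose_one, h.herm]
    · have := congrArg Matrix.conjTranspose h.fix
      rw [Matrix.conjTranspose_mul, h.herm] at this
      rw [Matrix.mul_sub, Matrix.mul_one, this, sub_self]
    · have := congrArg Matrix.conjTranspose hB
      rw [h.herm, Matrix.conjTranspose_mul] at this
      rw [sub_sub_cancel, this]
  have h1 : MReal Aᴴ := by
    apply real_of_mev
    intro x
    rw [mev_conjTranspose, mev_conjTranspose, mev_of_real hA]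
    ext i j
    simp
  have h2 := hk.real h1
  apply real_of_mev
  intro x
  have h3 := mev_of_real h2 x
  rw [mev_sub, mev_sub, mev_one, mev_one] at h3
  ext i j
  have h4 := congrFun (congrFun h3 i) j
  simp only [Matrix.sub_apply, Matrix.map_apply, map_sub] at h4 ⊢
  have h5 : (starRingEnd ℂ) ((1 : Matrix ι ι ℂ) i j) = (1 : Matrix ι ι ℂ) i j := by
    by_cases hij : i = j
    · subst hij; simp
    · simp [hij]
  rw [h5] at h4
  exact sub_right_injective h4

end trivial

end Pool.Agent.PD4
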