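import Pool.Agent.H95.PD.Neg
import Pool.Agent.PD4.Ix.ChRules

/-!
# Project PD: Chern numbers of negative projections and of constant-rank bundles (helper95)
-/

open Matrix
open scoped ContDiff
open Pool.Agent.H95.PD

namespace Pool.Agent.PD4

variable {ι κ : Type*} [Fintype ι] [DecidableEq ι] [Fintype κ] [DecidableEq κ]

/-- fibrewise isomorphic bundles have the same Chern numbers -/
theorem evenCh_of_pointwise (k : ℕ) {p : Matrix κ κ (Sm (2 * k))} {q : Matrix ι ι (Sm (2 * k))}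
    {X : Matrix κ ι (Sm (2 * k))} (hp : p * p = p) (hp' : pᴴ = p) (hq : q * q = q) (hq' : qᴴ = q)
    (h1 : p * X = X) (h2 : X * q = X)
    (hinj : ∀ x v, mev x q *ᵥ v = v → mev x X *ᵥ v = 0 → v = 0)
    (htr : ∀ x, (mev x p).trace = (mev x q).trace) : evenCh k p = evenCh k q := by
  obtain ⟨Y, -, -, h3, h4⟩ := mvn_of_pointwise hp hp' hq hq' h1 h2 hinj htr
  exact evenCh_mvn k hp hq X Y h4 h3

/-- `N = Rᴴ M R` with the same number of negative directions at one point -/
theorem evenCh_negProj_of (k : ℕ) {M : Matrix κ κ (Sm (2 * k))} {N : Matrix ι ι (Sm (2 * k))}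
    (R : Matrix κ ι (Sm (2 * k))) (hM : Mᴴ = M) (hu : IsUnit M) (hN : Nᴴ = N) (hu' : IsUnit N)
    (h : Rᴴ * M * R = N) (x0 : Fin (2 * k) → ℝ)
    (htr : (negP (mev x0 M)).rank = (negP (mev x0 N)).rank) :
    evenCh k (negProj M hM hu) = evenCh k (negProj N hN hu') := by
  obtain ⟨X, Y, -, -, -, -, h3, h4⟩ := negProj_mvn R hM hu hN hu' h x0 htr
  exact evenCh_mvn k (negProj_idem M hM hu) (negProj_idem N hN hu') X Y h4 h3

/-- congruent matrices have negative projections with the same Chern numbers -/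
theorem evenCh_negProj_congr (k : ℕ) {M : Matrix κ κ (Sm (2 * k))} {N : Matrix ι ι (Sm (2 * k))}
    (A : Matrix κ ι (Sm (2 * k))) (B : Matrix ι κ (Sm (2 * k))) (hAB : A * B = 1)
    (hM : Mᴴ = M) (hu : IsUnit M) (hN : Nᴴ = N) (hu' : IsUnit N) (h : Aᴴ * M * A = N) :
    evenCh k (negProj M hM hu) = evenCh k (negProj N hN hu') := by
  obtain ⟨X, Y, -, -, -, -, h3, h4⟩ := negProj_mvn_congr A B hAB hM hu hN hu' h
  exact evenCh_mvn k (negProj_idem M hM hu) (negProj_idem N hN hu') X Y h4 h3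

/-- the range bundle of a pointwise injective matrix has trivial Chern numbers -/
theorem evenCh_ranProj_trivial {k : ℕ} (hk : 0 < k) (A : Matrix ι κ (Sm (2 * k)))
    (hinj : ∀ x v, mev x A *ᵥ v = 0 → v = 0) (P : Matrix ι ι (Sm (2 * k)))
    (hP : IsRanProj A P) : evenCh k P = 0 := by
  obtain ⟨B, -, h2, h3⟩ := ranProj_trivial A hinj P hP
  rw [evenCh_mvn k hP.idem (Matrix.mul_one 1) A B h3 h2, evenCh_one hk]

/-- nested hermitian idempotents -/
theorem evenCh_sub_of_le (k : ℕ) {p q : Matrix ι ι (Sm (2 * k))} (hp : p * p = p) (hq : q * q = q)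
    (hpq : p * q = q) (hqp : q * p = q) : evenCh k (p - q) = evenCh k p - evenCh k q := by
  have h := evenCh_add k (e := p - q) (f := q)
    (by rw [Matrix.sub_mul, Matrix.mul_sub, Matrix.mul_sub, hp, hq, hpq, hqp]; abel) hq
    (by rw [Matrix.sub_mul, hpq, hq, sub_self]) (by rw [Matrix.mul_sub, hqp, hq, sub_self])
  rw [sub_add_cancel] at h
  rw [h]; ring

end Pool.Agent.PD4
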