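import Pool.Agent.H95.PD.SmoothSqrt

/-!
The negative spectral projection of an invertible hermitian matrix (helper95): algebra and
smooth dependence.
-/

open Matrix
open scoped ComplexOrder MatrixOrder Matrix.Norms.L2Operator ContDiff Topology

namespace Pool.Agent.H95.PD

variable {m : Type*} [Fintype m] [DecidableEq m]

/-- the absolute value `|H| = (H²)^{1/2}` -/
noncomputable def absM (H : Matrix m m ℂ) : Matrix m m ℂ := CFC.sqrt (H * H)

/-- the sign `H |H|⁻¹` -/
noncomputable def sgnM (H : Matrix m m ℂ) : Matrix m m ℂ := H * (absM H)⁻¹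

/-- the negative spectral projection -/
noncomputable def negP (H : Matrix m m ℂ) : Matrix m m ℂ := (1 / 2 : ℂ) • (1 - sgnM H)

theorem sq_posDef {H : Matrix m m ℂ} (hH : H.IsHermitian) (hd : H.det ≠ 0) :
    (H * H).PosDef := by
  have h1 : (Hᴴ * H).PosSemidef := posSemidef_conjTranspose_mul_self H
  rw [hH.eq] at h1
  refine (h1.posDef_iff_det_ne_zero).mpr ?_
  rw [Matrix.det_mul]
  exact mul_ne_zero hd hd

theorem absM_mul_self {H : Matrix m m ℂ} (hH : H.IsHermitian) (hd : H.det ≠ 0) :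
    absM H * absM H = H * H :=
  CFC.sqrt_mul_sqrt_self (H * H) (sq_posDef hH hd).posSemidef.nonneg

theorem absM_posDef {H : Matrix m m ℂ} (hH : H.IsHermitian) (hd : H.det ≠ 0) :
    (absM H).PosDef := by
  have h1 : (absM H).PosSemidef := (CFC.sqrt_nonneg (H * H)).posSemidef
  refine (h1.posDef_iff_det_ne_zero).mpr ?_
  intro h0
  have h2 : (H * H).det ≠ 0 := (sq_posDef hH hd).det_pos.ne'
  apply h2
  rw [← absM_mul_self hH hd, Matrix.det_mul, h0, zero_mul]

theorem absM_isUnit {H : Matrix m m ℂ} (hH : H.IsHermitian) (hd : H.det ≠ 0) :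
    IsUnit (absM H) := (absM_posDef hH hd).isUnit

theorem absM_isUnit_det {H : Matrix m m ℂ} (hH : H.IsHermitian) (hd : H.det ≠ 0) :
    IsUnit (absM H).det := (Matrix.isUnit_iff_isUnit_det _).mp (absM_isUnit hH hd)

theorem absM_commute (H : Matrix m m ℂ) : Commute (absM H) H := by
  have h : Commute (H * H) H := (Commute.refl H).mul_left (Commute.refl H)
  have h1 := Commute.cfc_nnreal h NNReal.sqrt
  have h2 : absM H = cfc NNReal.sqrt (H * H) := CFC.sqrt_eq_cfc
  rw [h2]
  exact h1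

theorem absM_inv_commute {H : Matrix m m ℂ} (hH : H.IsHermitian) (hd : H.det ≠ 0) :
    Commute (absM H)⁻¹ H := by
  have hu := absM_isUnit_det hH hd
  have h := absM_commute H
  have e : (absM H)⁻¹ * H = H * (absM H)⁻¹ := by
    calc (absM H)⁻¹ * H = (absM H)⁻¹ * (H * absM H) * (absM H)⁻¹ := by
          rw [Matrix.mul_assoc, Matrix.mul_assoc, Matrix.mul_nonsing_inv _ hu, Matrix.mul_one]
      _ = (absM H)⁻¹ * (absM H * H) * (absM H)⁻¹ := by rw [h.eq]
      _ = H * (absM H)⁻¹ := by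
          rw [← Matrix.mul_assoc (absM H)⁻¹, Matrix.nonsing_inv_mul _ hu, Matrix.one_mul]
  exact e

theorem sgnM_mul_self {H : Matrix m m ℂ} (hH : H.IsHermitian) (hd : H.det ≠ 0) :
    sgnM H * sgnM H = 1 := by
  have hu := absM_isUnit_det hH hd
  unfold sgnM
  calc H * (absM H)⁻¹ * (H * (absM H)⁻¹) = H * ((absM H)⁻¹ * H) * (absM H)⁻¹ := by
        simp only [Matrix.mul_assoc]
    _ = (H * H) * (absM H)⁻¹ * (absM H)⁻¹ := by
        rw [(absM_inv_commute hH hd).eq]; simp only [Matrix.mul_assoc]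
    _ = (absM H * absM H) * (absM H)⁻¹ * (absM H)⁻¹ := by rw [absM_mul_self hH hd]
    _ = 1 := by
        rw [Matrix.mul_assoc (absM H), Matrix.mul_nonsing_inv _ hu, Matrix.mul_one,
          Matrix.mul_nonsing_inv _ hu]

theorem sgnM_herm {H : Matrix m m ℂ} (hH : H.IsHermitian) (hd : H.det ≠ 0) :
    (sgnM H)ᴴ = sgnM H := by
  unfold sgnM
  rw [Matrix.conjTranspose_mul, Matrix.conjTranspose_nonsing_inv,
    (absM_posDef hH hd).isHermitian.eq, hH.eq, (absM_inv_commute hH hd).eq]

theorem abs_mul_sgn {H : Matrix m m ℂ} (hH : H.IsHermitian) (hd : H.det ≠ 0) :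
    absM H * sgnM H = H := by
  have hu := absM_isUnit_det hH hd
  unfold sgnM
  rw [← Matrix.mul_assoc, (absM_commute H).eq, Matrix.mul_assoc, Matrix.mul_nonsing_inv _ hu,
    Matrix.mul_one]

theorem sgn_mul_abs {H : Matrix m m ℂ} (hH : H.IsHermitian) (hd : H.det ≠ 0) :
    sgnM H * absM H = H := by
  have hu := absM_isUnit_det hH hd
  unfold sgnM
  rw [Matrix.mul_assoc, Matrix.nonsing_inv_mul _ hu, Matrix.mul_one]

theorem one_sub_two_negP (H : Matrix m m ℂ) : 1 - (2 : ℂ) • negP H = sgnM H := by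
  unfold negP
  rw [smul_smul]
  norm_num

theorem negP_idem {H : Matrix m m ℂ} (hH : H.IsHermitian) (hd : H.det ≠ 0) :
    negP H * negP H = negP H := by
  unfold negP
  rw [Matrix.smul_mul, Matrix.mul_smul, smul_smul, Matrix.sub_mul, Matrix.mul_sub, Matrix.mul_sub,
    sgnM_mul_self hH hd, Matrix.one_mul, Matrix.mul_one, Matrix.one_mul]
  have : (1 - sgnM H - (sgnM H - 1) : Matrix m m ℂ) = (2 : ℂ) • (1 - sgnM H) := by
    rw [two_smul]; abel
  rw [this, smul_smul]
  norm_num

theorem negP_herm {H : Matrix m m ℂ} (hH : H.IsHermitian) (hd : H.det ≠ 0) :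
    (negP H)ᴴ = negP H := by
  unfold negP
  rw [Matrix.conjTranspose_smul, Matrix.conjTranspose_sub, Matrix.conjTranspose_one,
    sgnM_herm hH hd]
  congr 1
  simp

/-- polar form `H = |H| (1 - 2 P)` -/
theorem polar {H : Matrix m m ℂ} (hH : H.IsHermitian) (hd : H.det ≠ 0) :
    absM H * (1 - (2 : ℂ) • negP H) = H := by
  rw [one_sub_two_negP, abs_mul_sgn hH hd]

theorem polar' {H : Matrix m m ℂ} (hH : H.IsHermitian) (hd : H.det ≠ 0) :
    (1 - (2 : ℂ) • negP H) * absM H = H := by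
  rw [one_sub_two_negP, sgn_mul_abs hH hd]

/-- uniqueness of the polar form -/
theorem absM_unique {H K S : Matrix m m ℂ} (hK : K.PosDef) (hS : S * S = 1)
    (h1 : K * S = H) (h2 : S * K = H) : absM H = K := by
  unfold absM
  refine CFC.sqrt_unique ?_ hK.posSemidef.nonneg
  calc K * K = K * (S * S) * K := by rw [hS, Matrix.mul_one]
    _ = (K * S) * (S * K) := by simp only [Matrix.mul_assoc]
    _ = H * H := by rw [h1, h2]

theorem negP_unique {H K P : Matrix m m ℂ} (hK : K.PosDef) (hP : P * P = P)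
    (h1 : K * (1 - (2 : ℂ) • P) = H) (h2 : (1 - (2 : ℂ) • P) * K = H) : negP H = P := by
  have hS : (1 - (2 : ℂ) • P) * (1 - (2 : ℂ) • P) = 1 := by
    rw [Matrix.sub_mul, Matrix.mul_sub, Matrix.mul_sub, Matrix.one_mul, Matrix.mul_one,
      Matrix.one_mul, Matrix.smul_mul, Matrix.mul_smul, hP, smul_smul]
    have : (2 : ℂ) * 2 = 2 + 2 := by norm_num
    rw [this, add_smul]; abel
  have h3 := absM_unique hK hS h1 h2
  have hu : IsUnit K.det := (Matrix.isUnit_iff_isUnit_det _).mp hK.isUnit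
  have h4 : sgnM H = 1 - (2 : ℂ) • P := by
    unfold sgnM
    rw [h3, ← h2, Matrix.mul_assoc, Matrix.mul_nonsing_inv _ hu, Matrix.mul_one]
  unfold negP
  rw [h4, sub_sub_cancel, smul_smul]
  norm_num

/-- conjugation -/
theorem negP_map_conj {H : Matrix m m ℂ} (hH : H.IsHermitian) (hd : H.det ≠ 0) :
    negP (H.map (starRingEnd ℂ)) = (negP H).map (starRingEnd ℂ) := by
  have key : ∀ A B : Matrix m m ℂ, (A * B).map (starRingEnd ℂ) =
      A.map (starRingEnd ℂ) * B.map (starRingEnd ℂ) := fun A B => Matrix.map_mul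
  have hK : ((absM H).map (starRingEnd ℂ)).PosDef := by
    have h1 : ((absM H)ᵀ).PosDef := (absM_posDef hH hd).transpose
    have h2 : (absM H)ᵀ = (absM H).map (starRingEnd ℂ) := by
      have h3 := (absM_posDef hH hd).isHermitian
      ext i j
      have := congrFun (congrFun h3.eq j) i
      simp only [Matrix.conjTranspose_apply] at this
      simp only [Matrix.transpose_apply, Matrix.map_apply]
      rw [← this]; rfl
    rw [← h2]; exact h1
  have hone : (1 : Matrix m m ℂ).map (starRingEnd ℂ) = 1 := by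
    ext i j; simp [Matrix.one_apply]
  have hlin : ((1 : Matrix m m ℂ) - (2 : ℂ) • negP H).map (starRingEnd ℂ) =
      1 - (2 : ℂ) • (negP H).map (starRingEnd ℂ) := by
    ext i j
    simp only [Matrix.map_apply, Matrix.sub_apply, Matrix.smul_apply, smul_eq_mul, map_sub,
      map_mul]
    congr 1
    · have := congrFun (congrFun hone i) j
      simpa using this
    · rw [show (starRingEnd ℂ) (2 : ℂ) = 2 from by
        rw [show (2 : ℂ) = ((2 : ℝ) : ℂ) by norm_num]; exact Complex.conj_ofReal 2]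
  refine negP_unique hK ?_ ?_ ?_
  · rw [← key, negP_idem hH hd]
  · rw [← hlin, ← key, polar hH hd]
  · rw [← hlin, ← key, polar' hH hd]

section smooth

variable {E : Type*} [NormedAddCommGroup E] [NormedSpace ℝ E]

theorem absM_contDiff {H : E → Matrix m m ℂ} (hs : ContDiff ℝ ∞ H)
    (hH : ∀ x, (H x).IsHermitian) (hd : ∀ x, (H x).det ≠ 0) :
    ContDiff ℝ ∞ (fun x => absM (H x)) := by
  rw [contDiff_iff_contDiffAt]
  intro x
  exact sqrt_contDiffAt (hs.mul hs) (fun y => sq_posDef (hH y) (hd y)) x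

theorem inv_contDiff {A : E → Matrix m m ℂ} (hs : ContDiff ℝ ∞ A)
    (hd : ∀ x, IsUnit (A x)) : ContDiff ℝ ∞ (fun x => (A x)⁻¹) := by
  rw [contDiff_iff_contDiffAt]
  intro x
  obtain ⟨u, hu⟩ := hd x
  have h1 : ContDiffAt ℝ ∞ Ring.inverse (A x) := by
    rw [← hu]; exact contDiffAt_ringInverse ℝ u
  have h2 : (fun y => (A y)⁻¹) = fun y => Ring.inverse (A y) := by
    funext y; exact Matrix.nonsing_inv_eq_ringInverse _
  rw [h2]
  exact h1.comp x hs.contDiffAt

theorem negP_contDiff {H : E → Matrix m m ℂ} (hs : ContDiff ℝ ∞ H)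
    (hH : ∀ x, (H x).IsHermitian) (hd : ∀ x, (H x).det ≠ 0) :
    ContDiff ℝ ∞ (fun x => negP (H x)) := by
  have h1 := inv_contDiff (absM_contDiff hs hH hd) (fun x => absM_isUnit (hH x) (hd x))
  have h2 : ContDiff ℝ ∞ (fun x => sgnM (H x)) := hs.mul h1
  exact (contDiff_const (c := (1 : Matrix m m ℂ))).sub h2 |>.const_smul (1 / 2 : ℂ)

end smooth

end Pool.Agent.H95.PD
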