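import Pool.Agent.PD4.Ix.Sm
import Pool.Agent.H95.PD.NegP

/-!
# Project PD: smooth negative spectral projection of a hermitian invertible matrix over `Sm n`
(helper95)
-/

open Matrix
open scoped ComplexOrder MatrixOrder ContDiff Topology
open Pool.Agent.H95.PD

namespace Pool.Agent.PD4

variable {ι κ : Type*} {n : ℕ}

section mev

@[simp] lemma mev_apply (x : Fin n → ℝ) (M : Matrix ι κ (Sm n)) (i : ι) (j : κ) :
    mev x M i j = (M i j).1 x := rfl

lemma mev_add (x : Fin n → ℝ) (M N : Matrix ι κ (Sm n)) : mev x (M + N) = mev x M + mev x N :=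
  rfl

lemma mev_sub (x : Fin n → ℝ) (M N : Matrix ι κ (Sm n)) : mev x (M - N) = mev x M - mev x N :=
  rfl

lemma mev_neg (x : Fin n → ℝ) (M : Matrix ι κ (Sm n)) : mev x (-M) = -mev x M := rfl

lemma mev_smul (x : Fin n → ℝ) (c : ℂ) (M : Matrix ι κ (Sm n)) :
    mev x (c • M) = c • mev x M := rfl

lemma mev_zero (x : Fin n → ℝ) : mev x (0 : Matrix ι κ (Sm n)) = 0 := rfl

lemma mev_mul {l : Type*} [Fintype κ] (x : Fin n → ℝ) (M : Matrix ι κ (Sm n))
    (N : Matrix κ l (Sm n)) : mev x (M * N) = mev x M * mev x N := by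
  ext i j
  have h : ((∑ k, M i k * N k j : Sm n)).1 x = ∑ k, (M i k).1 x * (N k j).1 x := by
    have := map_sum (Sm.ev x) (fun k => M i k * N k j) Finset.univ
    exact this
  simp [Matrix.mul_apply]

lemma mev_conjTranspose (x : Fin n → ℝ) (M : Matrix ι κ (Sm n)) :
    mev x Mᴴ = (mev x M)ᴴ := rfl

lemma mev_one [DecidableEq ι] (x : Fin n → ℝ) : mev x (1 : Matrix ι ι (Sm n)) = 1 := by
  ext i j
  by_cases h : i = j
  · subst h; simp
  · simp [h]

lemma mev_injective {M N : Matrix ι κ (Sm n)} (h : ∀ x, mev x M = mev x N) : M = N :=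
  Matrix.ext fun i j => Subtype.ext (funext fun x => congrFun (congrFun (h x) i) j)

lemma mev_periodic (x : Fin n → ℝ) (k : Fin n) (M : Matrix ι κ (Sm n)) :
    mev (x + Pi.single k 1) M = mev x M := by
  ext i j
  exact (M i j).2.2 x k

lemma mev_isUnit [Fintype ι] [DecidableEq ι] {M : Matrix ι ι (Sm n)} (h : IsUnit M)
    (x : Fin n → ℝ) : IsUnit (mev x M) := by
  obtain ⟨u, rfl⟩ := h
  refine ⟨⟨mev x (u : Matrix ι ι (Sm n)), mev x ((u⁻¹ : (Matrix ι ι (Sm n))ˣ) :
    Matrix ι ι (Sm n)), ?_, ?_⟩, rfl⟩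
  · rw [← mev_mul, Units.mul_inv, mev_one]
  · rw [← mev_mul, Units.inv_mul, mev_one]

lemma mev_det_ne_zero [Fintype ι] [DecidableEq ι] {M : Matrix ι ι (Sm n)} (h : IsUnit M)
    (x : Fin n → ℝ) : (mev x M).det ≠ 0 :=
  ((Matrix.isUnit_iff_isUnit_det _).mp (mev_isUnit h x)).ne_zero

lemma mev_isHermitian {M : Matrix ι ι (Sm n)} (h : Mᴴ = M) (x : Fin n → ℝ) :
    (mev x M).IsHermitian := by
  unfold Matrix.IsHermitian
  rw [← mev_conjTranspose, h]

open scoped Matrix.Norms.L2Operator in
lemma mev_contDiff [Fintype ι] [DecidableEq ι] (M : Matrix ι ι (Sm n)) :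
    ContDiff ℝ ∞ (fun x => mev x M) := by
  have h : ContDiff ℝ ∞ (fun x => (fun i j => mev x M i j : ι → ι → ℂ)) :=
    contDiff_pi.mpr fun i => contDiff_pi.mpr fun j => (M i j).2.1
  have e : (fun x => mev x M) = fun x => ∑ i, ∑ j, (mev x M i j) • Matrix.single i j (1 : ℂ) := by
    funext x
    conv_lhs => rw [Matrix.matrix_eq_sum_single (mev x M)]
    simp [Matrix.smul_single]
  rw [e]
  exact ContDiff.sum fun i _ => ContDiff.sum fun j _ => ((M i j).2.1).smul contDiff_const

/-- a smooth periodic matrix function is a matrix over `Sm n` -/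
noncomputable def ofMat [Fintype ι] [DecidableEq ι] (F : (Fin n → ℝ) → Matrix ι ι ℂ)
    (h1 : ∀ i j, ContDiff ℝ ∞ fun x => F x i j)
    (h2 : ∀ x (k : Fin n), F (x + Pi.single k 1) = F x) : Matrix ι ι (Sm n) :=
  fun i j => ⟨fun x => F x i j, h1 i j, fun x k => congrFun (congrFun (h2 x k) i) j⟩

open scoped Matrix.Norms.L2Operator in
lemma entry_contDiff [Fintype ι] [DecidableEq ι] {F : (Fin n → ℝ) → Matrix ι ι ℂ}
    (h : ContDiff ℝ ∞ F) (i j : ι) : ContDiff ℝ ∞ fun x => F x i j := by
  have h1 : (fun x => F x i j) = fun x =>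
      (LinearMap.toContinuousLinearMap ((Matrix.entryLinearMap ℝ ℂ i j)) :
        Matrix ι ι ℂ →L[ℝ] ℂ) (F x) := by
    funext x; rfl
  rw [h1]
  exact (ContinuousLinearMap.contDiff _).comp h

end mev

section negProj

variable [Fintype ι] [DecidableEq ι]

/-- the negative spectral projection -/
noncomputable def negProj (M : Matrix ι ι (Sm n)) (hM : Mᴴ = M) (hu : IsUnit M) :
    Matrix ι ι (Sm n) :=
  ofMat (fun x => negP (mev x M))
    (fun i j => entry_contDiff (negP_contDiff (mev_contDiff M) (fun x => mev_isHermitian hM x)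
      (fun x => mev_det_ne_zero hu x)) i j)
    (fun x k => by rw [mev_periodic])

/-- the absolute value -/
noncomputable def absSm (M : Matrix ι ι (Sm n)) (hM : Mᴴ = M) (hu : IsUnit M) :
    Matrix ι ι (Sm n) :=
  ofMat (fun x => absM (mev x M))
    (fun i j => entry_contDiff (absM_contDiff (mev_contDiff M) (fun x => mev_isHermitian hM x)
      (fun x => mev_det_ne_zero hu x)) i j)
    (fun x k => by rw [mev_periodic])

variable (M : Matrix ι ι (Sm n)) (hM : Mᴴ = M) (hu : IsUnit M)

@[simp] lemma mev_negProj (x : Fin n → ℝ) : mev x (negProj M hM hu) = negP (mev x M) := rfl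

@[simp] lemma mev_absSm (x : Fin n → ℝ) : mev x (absSm M hM hu) = absM (mev x M) := rfl

lemma absSm_posDef (x : Fin n → ℝ) : (mev x (absSm M hM hu)).PosDef :=
  absM_posDef (mev_isHermitian hM x) (mev_det_ne_zero hu x)

lemma absSm_herm : (absSm M hM hu)ᴴ = absSm M hM hu :=
  mev_injective fun x => by
    rw [mev_conjTranspose]; exact (absSm_posDef M hM hu x).isHermitian.eq

lemma negProj_idem : negProj M hM hu * negProj M hM hu = negProj M hM hu :=
  mev_injective fun x => by
    rw [mev_mul]; exact negP_idem (mev_isHermitian hM x) (mev_det_ne_zero hu x)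

lemma negProj_herm : (negProj M hM hu)ᴴ = negProj M hM hu :=
  mev_injective fun x => by
    rw [mev_conjTranspose]; exact negP_herm (mev_isHermitian hM x) (mev_det_ne_zero hu x)

/-- polar form -/
lemma abs_mul_negProj : absSm M hM hu * (1 - (2 : ℂ) • negProj M hM hu) = M :=
  mev_injective fun x => by
    rw [mev_mul, mev_sub, mev_smul, mev_one]
    exact polar (mev_isHermitian hM x) (mev_det_ne_zero hu x)

/-- polar form -/
lemma negProj_mul_abs : (1 - (2 : ℂ) • negProj M hM hu) * absSm M hM hu = M :=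
  mev_injective fun x => by
    rw [mev_mul, mev_sub, mev_smul, mev_one]
    exact polar' (mev_isHermitian hM x) (mev_det_ne_zero hu x)

/-- `negProj` is characterised by its polar form -/
lemma negProj_unique {K P : Matrix ι ι (Sm n)} (hK : ∀ x, (mev x K).PosDef) (hP : P * P = P)
    (h1 : K * (1 - (2 : ℂ) • P) = M) (h2 : (1 - (2 : ℂ) • P) * K = M) :
    negProj M hM hu = P :=
  mev_injective fun x => by
    rw [mev_negProj]
    refine negP_unique (hK x) ?_ ?_ ?_
    · rw [← mev_mul, hP]
    · rw [← mev_one x, ← mev_smul, ← mev_sub, ← mev_mul, h1]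
    · rw [← mev_one x, ← mev_smul, ← mev_sub, ← mev_mul, h2]

omit [Fintype ι] [DecidableEq ι] in
lemma mev_of_real {κ : Type*} {N : Matrix ι κ (Sm n)} (h : MReal N) (x : Fin n → ℝ) :
    mev (-x) N = (mev x N).map (starRingEnd ℂ) := by
  ext i j
  have h1 := h i j
  exact congrArg (fun f : Sm n => f.1 x) h1

omit [Fintype ι] [DecidableEq ι] in
lemma real_of_mev {κ : Type*} {N : Matrix ι κ (Sm n)}
    (h : ∀ x, mev (-x) N = (mev x N).map (starRingEnd ℂ)) : MReal N := by
  intro i j
  apply Subtype.ext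
  funext x
  exact congrFun (congrFun (h x) i) j

/-- the negative projection of a Real hermitian matrix is Real -/
lemma negProj_real (hr : MReal M) : MReal (negProj M hM hu) := by
  apply real_of_mev
  intro x
  rw [mev_negProj, mev_negProj, mev_of_real hr x]
  exact negP_map_conj (mev_isHermitian hM x) (mev_det_ne_zero hu x)

/-- the absolute value of a Real hermitian matrix is Real -/
lemma absSm_real (hr : MReal M) : MReal (absSm M hM hu) := by
  have h := abs_mul_negProj M hM hu
  have hP := negProj_real M hM hu hr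
  have h2 : (1 - (2 : ℂ) • negProj M hM hu) * (1 - (2 : ℂ) • negProj M hM hu) = 1 := by
    rw [Matrix.sub_mul, Matrix.mul_sub, Matrix.mul_sub, Matrix.one_mul, Matrix.mul_one,
      Matrix.one_mul, Matrix.smul_mul, Matrix.mul_smul, negProj_idem, smul_smul]
    have : (2 : ℂ) * 2 = 2 + 2 := by norm_num
    rw [this, add_smul]; abel
  have h3 : absSm M hM hu = M * (1 - (2 : ℂ) • negProj M hM hu) := by
    calc absSm M hM hu = absSm M hM hu *
          ((1 - (2 : ℂ) • negProj M hM hu) * (1 - (2 : ℂ) • negProj M hM hu)) := by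
            rw [h2, Matrix.mul_one]
      _ = _ := by rw [← Matrix.mul_assoc, h]
  apply real_of_mev
  intro x
  have key : ∀ A B : Matrix ι ι ℂ, (A * B).map (starRingEnd ℂ) =
      A.map (starRingEnd ℂ) * B.map (starRingEnd ℂ) := fun A B => Matrix.map_mul
  rw [h3, mev_mul, mev_mul, key, mev_of_real hr x]
  congr 1
  rw [mev_sub, mev_sub, mev_smul, mev_smul, mev_one, mev_one, mev_of_real hP x]
  ext i j
  simp only [Matrix.map_apply, Matrix.sub_apply, Matrix.smul_apply, smul_eq_mul, map_sub,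
    map_mul]
  congr 1
  · by_cases hij : i = j
    · subst hij; simp
    · simp [hij]
  · rw [show (starRingEnd ℂ) (2 : ℂ) = 2 from by
      rw [show (2 : ℂ) = ((2 : ℝ) : ℂ) by norm_num]; exact Complex.conj_ofReal 2]

/-- restriction to a coordinate subtorus -/
lemma negProj_restr {m : ℕ} (s : Fin m ↪ Fin n)
    (hM' : (M.map (Sm.restr s))ᴴ = M.map (Sm.restr s)) (hu' : IsUnit (M.map (Sm.restr s))) :
    (negProj M hM hu).map (Sm.restr s) = negProj (M.map (Sm.restr s)) hM' hu' := by
  apply mev_injective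
  intro y
  rw [mev_negProj]
  rfl

end negProj

end Pool.Agent.PD4
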