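import Pool.Agent.H95.PD.NegProjSm

/-!
# Project PD: matrices of constant rank over `Sm n`, kernel and range projections,
Murray-von Neumann equivalence from fibrewise isomorphisms (helper95)
-/

open Matrix Polynomial
open scoped ComplexOrder ContDiff

namespace Pool.Agent.PD4

variable {ι κ l : Type*} [Fintype ι] [DecidableEq ι] [Fintype κ] [DecidableEq κ] {n : ℕ}

section pointwise

omit [DecidableEq κ] in
/-- trace of an idempotent matrix = rank -/
lemma trace_eq_rank {P : Matrix ι ι ℂ} (h : P * P = P) : P.trace = (P.rank : ℂ) := by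
  have h1 : IsIdempotentElem (Matrix.toLin' P) := by
    unfold IsIdempotentElem
    rw [Module.End.mul_eq_comp, ← Matrix.toLin'_mul, h]
  have h2 := (LinearMap.IsIdempotentElem.isProj_range _ h1).trace
  rw [Matrix.trace_toLin'_eq] at h2
  rw [h2, Matrix.rank, Matrix.toLin'_apply']

omit [DecidableEq ι] [Fintype κ] [DecidableEq κ] in
lemma mat_rank_add_le (A B : Matrix κ ι ℂ) : (A + B).rank ≤ A.rank + B.rank := by
  unfold Matrix.rank
  rw [Matrix.mulVecLin_add]
  refine le_trans (Submodule.finrank_mono (LinearMap.range_add_le _ _)) ?_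
  exact Submodule.finrank_add_le_finrank_add_finrank _ _

omit [Fintype κ] [DecidableEq κ] in
lemma mat_rank_eq_zero {A : Matrix κ ι ℂ} (h : A.rank = 0) : A = 0 := by
  unfold Matrix.rank at h
  have h1 := Submodule.finrank_eq_zero.mp h
  rw [LinearMap.range_eq_bot] at h1
  classical
  ext i j
  have h2 := congrArg (fun f : (ι → ℂ) →ₗ[ℂ] (κ → ℂ) => f (Pi.single j 1) i) h1
  simpa using h2

omit [DecidableEq κ] in
/-- the kernel projection of a complex matrix is unique -/
lemma ker_unique {A : Matrix κ ι ℂ} {P P' : Matrix ι ι ℂ} {B B' : Matrix ι κ ℂ}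
    (hP : Pᴴ = P) (hP' : P'ᴴ = P') (hA : A * P = 0) (hA' : A * P' = 0)
    (hB : 1 - P = B * A) (hB' : 1 - P' = B' * A) : P = P' := by
  have h1 : P' = P * P' := by
    have : (1 - P) * P' = 0 := by rw [hB, Matrix.mul_assoc, hA', Matrix.mul_zero]
    rw [Matrix.sub_mul, Matrix.one_mul] at this
    exact sub_eq_zero.mp this
  have h2 : P = P' * P := by
    have : (1 - P') * P = 0 := by rw [hB', Matrix.mul_assoc, hA, Matrix.mul_zero]
    rw [Matrix.sub_mul, Matrix.one_mul] at this
    exact sub_eq_zero.mp this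
  have h3 : P'ᴴ = (P * P')ᴴ := by rw [← h1]
  rw [Matrix.conjTranspose_mul, hP', hP, ← h2] at h3
  exact h3.symm

/-- characteristic polynomial of a hermitian matrix: exact order of vanishing at `0` -/
lemma charpoly_herm_factor {G : Matrix ι ι ℂ} (hG : G.IsHermitian) :
    ∃ q : ℂ[X], G.charpoly = X ^ (Fintype.card ι - G.rank) * q ∧ q.coeff 0 ≠ 0 := by
  classical
  refine ⟨∏ i ∈ Finset.univ.filter (fun i => ¬ hG.eigenvalues i = 0),
    (X - C (hG.eigenvalues i : ℂ)), ?_, ?_⟩
  · rw [hG.charpoly_eq, ← Finset.prod_filter_mul_prod_filter_not Finset.univ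
      (fun i => hG.eigenvalues i = 0)]
    congr 1
    have h1 : ∀ i ∈ Finset.univ.filter (fun i => hG.eigenvalues i = 0),
        (X - C (hG.eigenvalues i : ℂ)) = (X : ℂ[X]) := by
      intro i hi
      rw [Finset.mem_filter] at hi
      rw [hi.2]; simp
    refine (Finset.prod_congr rfl h1).trans ?_
    rw [Finset.prod_const]
    congr 1
    have h2 : (Finset.univ.filter (fun i => hG.eigenvalues i = 0)).card +
        (Finset.univ.filter (fun i => ¬ hG.eigenvalues i = 0)).card = Fintype.card ι := by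
      rw [Finset.card_filter_add_card_filter_not]; rfl
    have h3 : G.rank = (Finset.univ.filter (fun i => ¬ hG.eigenvalues i = 0)).card := by
      rw [hG.rank_eq_card_non_zero_eigs, Fintype.card_subtype]
    omega
  · rw [Polynomial.coeff_zero_eq_eval_zero, Polynomial.eval_prod]
    rw [Finset.prod_ne_zero_iff]
    intro i hi
    rw [Finset.mem_filter] at hi
    simp [hi.2]

end pointwise

section algebra

omit [Fintype ι] [DecidableEq ι] [DecidableEq κ] in
/-- `Xᴴ X = 0 → X = 0` over `Sm n` -/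
lemma sm_conjTranspose_mul_self_eq_zero {A : Matrix κ ι (Sm n)} (h : Aᴴ * A = 0) : A = 0 :=
  mev_injective fun x => by
    have h1 : (mev x A)ᴴ * mev x A = 0 := by
      rw [← mev_conjTranspose, ← mev_mul, h]; rfl
    exact Matrix.conjTranspose_mul_self_eq_zero.mp h1

omit [Fintype κ] [DecidableEq κ] in
/-- `G` hermitian, `G^(k+1) X = 0 → G X = 0` over `Sm n` -/
lemma herm_pow_mul_eq_zero {G : Matrix ι ι (Sm n)} (hG : Gᴴ = G) {X : Matrix ι κ (Sm n)}
    (k : ℕ) (h : G ^ (k + 1) * X = 0) : G * X = 0 := by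
  induction k with
  | zero => simpa using h
  | succ k ih =>
    apply ih
    apply sm_conjTranspose_mul_self_eq_zero
    have hp : (G ^ (k + 1))ᴴ = G ^ (k + 1) := by rw [Matrix.conjTranspose_pow, hG]
    rw [Matrix.conjTranspose_mul, hp]
    calc Xᴴ * G ^ (k + 1) * (G ^ (k + 1) * X)
        = Xᴴ * (G ^ k * (G ^ (k + 1 + 1) * X)) := by
          simp only [Matrix.mul_assoc]
          rw [← Matrix.mul_assoc (G ^ (k + 1)) (G ^ (k + 1)) X, ← Matrix.mul_assoc (G ^ k)
            (G ^ (k + 1 + 1)) X, ← pow_add, ← pow_add]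
          congr 3
          omega
      _ = 0 := by rw [h]; simp

/-- `P` is the orthogonal projection onto the kernel bundle of `A` -/
structure IsKerProj (A : Matrix κ ι (Sm n)) (P : Matrix ι ι (Sm n)) : Prop where
  idem : P * P = P
  herm : Pᴴ = P
  ann : A * P = 0
  compl : ∃ B : Matrix ι κ (Sm n), 1 - P = B * A

/-- `P` is the orthogonal projection onto the range bundle of `A` -/
structure IsRanProj (A : Matrix ι κ (Sm n)) (P : Matrix ι ι (Sm n)) : Prop where
  idem : P * P = P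
  herm : Pᴴ = P
  fix : P * A = A
  factor : ∃ B : Matrix κ ι (Sm n), P = A * B

lemma mev_charpoly (G : Matrix ι ι (Sm n)) (x : Fin n → ℝ) :
    (mev x G).charpoly = G.charpoly.map (Sm.ev x : Sm n →+* ℂ) := by
  have h := Matrix.charpoly_map G (Sm.ev x : Sm n →+* ℂ)
  exact h

omit [DecidableEq κ] in
/-- **Kernel projections exist for matrices of constant rank.** -/
theorem exists_kerProj (A : Matrix κ ι (Sm n)) (r : ℕ) (h : ∀ x, (mev x A).rank = r) :
    ∃ P, IsKerProj A P ∧ ∀ x, (mev x P).trace = ((Fintype.card ι - r : ℕ) : ℂ) := by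
  set G := Aᴴ * A with hGdef
  have hG : Gᴴ = G := by rw [hGdef, Matrix.conjTranspose_mul, Matrix.conjTranspose_conjTranspose]
  have hrank : ∀ x, (mev x G).rank = r := by
    intro x
    rw [hGdef, mev_mul, mev_conjTranspose, Matrix.rank_conjTranspose_mul_self, h x]
  have hcoef : ∀ x j, (G.charpoly.coeff j).1 x = (mev x G).charpoly.coeff j := by
    intro x j
    rw [mev_charpoly, Polynomial.coeff_map]; rfl
  set N := Fintype.card ι - r with hN
  have hdvd : (X ^ N : (Sm n)[X]) ∣ G.charpoly := by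
    rw [Polynomial.X_pow_dvd_iff]
    intro d hd
    apply Subtype.ext
    funext x
    rw [hcoef x d]
    obtain ⟨q, hq, -⟩ := charpoly_herm_factor (mev_isHermitian hG x)
    rw [hq, hrank x, ← hN, Polynomial.coeff_X_pow_mul']
    rw [if_neg (by omega)]; rfl
  obtain ⟨q, hq⟩ := hdvd
  have hu : IsUnit (q.coeff 0) := by
    apply Sm.isUnit
    intro x
    have h1 : q.coeff 0 = G.charpoly.coeff N := by
      rw [hq, Polynomial.coeff_X_pow_mul', if_pos le_rfl, Nat.sub_self]
    rw [h1, hcoef x N]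
    obtain ⟨q', hq', h0⟩ := charpoly_herm_factor (mev_isHermitian hG x)
    rw [hq', hrank x, ← hN, Polynomial.coeff_X_pow_mul', if_pos le_rfl, Nat.sub_self]
    exact h0
  obtain ⟨u, hu⟩ := hu
  set Q : Matrix ι ι (Sm n) := aeval G q with hQ
  -- `G Q = 0`
  have hGQ : G * Q = 0 := by
    rcases Nat.eq_zero_or_pos N with h0 | hpos
    · have : Q = 0 := by
        have h1 := Matrix.aeval_self_charpoly G
        rw [hq, h0, pow_zero, one_mul] at h1
        exact h1
      rw [this, Matrix.mul_zero]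
    · have h1 := Matrix.aeval_self_charpoly G
      rw [hq, map_mul, map_pow, aeval_X, ← hQ] at h1
      obtain ⟨k, hk⟩ : ∃ k, N = k + 1 := ⟨N - 1, by omega⟩
      rw [hk] at h1
      exact herm_pow_mul_eq_zero hG k h1
  -- `q = q(0) + X s`
  obtain ⟨s, hs⟩ : ∃ s : (Sm n)[X], q = C (q.coeff 0) + X * s := by
    have h1 : (X : (Sm n)[X]) ∣ q - C (q.coeff 0) := by
      rw [Polynomial.X_dvd_iff]; simp
    obtain ⟨s, hs⟩ := h1
    exact ⟨s, by rw [← hs]; ring⟩
  have hQs : Q = (u : Sm n) • (1 : Matrix ι ι (Sm n)) + G * aeval G s := by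
    rw [hQ]
    conv_lhs => rw [hs]
    rw [map_add, map_mul, aeval_X, aeval_C, ← hu, Algebra.algebraMap_eq_smul_one]
  have hcomm : G * aeval G s = aeval G s * G := by
    have h1 := map_mul (Polynomial.aeval G) X s
    have h2 := map_mul (Polynomial.aeval G) s X
    rw [aeval_X] at h1 h2
    rw [← h1, ← h2, mul_comm]
  set P : Matrix ι ι (Sm n) := ((u⁻¹ : (Sm n)ˣ) : Sm n) • Q with hPdef
  have hP1 : 1 - P = (-(((u⁻¹ : (Sm n)ˣ) : Sm n) • (aeval G s * Aᴴ))) * A := by
    rw [hPdef, hQs, smul_add, smul_smul, Units.inv_mul, one_smul, hcomm]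
    rw [Matrix.neg_mul, Matrix.smul_mul, Matrix.mul_assoc, ← hGdef]
    abel
  have hGP : G * P = 0 := by rw [hPdef, Matrix.mul_smul, hGQ, smul_zero]
  have hAP : A * P = 0 := by
    apply sm_conjTranspose_mul_self_eq_zero
    rw [Matrix.conjTranspose_mul]
    calc Pᴴ * Aᴴ * (A * P) = Pᴴ * (G * P) := by rw [hGdef]; simp only [Matrix.mul_assoc]
      _ = 0 := by rw [hGP, Matrix.mul_zero]
  have hidem : P * P = P := by
    have : (1 - P) * P = 0 := by rw [hP1, Matrix.mul_assoc, hAP, Matrix.mul_zero]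
    rw [Matrix.sub_mul, Matrix.one_mul] at this
    exact (sub_eq_zero.mp this).symm
  have hPG : Pᴴ * G = 0 := by
    have := congrArg Matrix.conjTranspose hGP
    rw [Matrix.conjTranspose_mul, hG, Matrix.conjTranspose_zero] at this
    exact this
  have hherm : Pᴴ = P := by
    -- `Pᴴ P = P` and `Pᴴ P = Pᴴ`
    have e1 : Pᴴ * P = Pᴴ := by
      have h1 : Pᴴ * (1 - P) = 0 := by
        rw [hP1, Matrix.neg_mul, Matrix.mul_neg, Matrix.smul_mul, Matrix.mul_smul,
          Matrix.mul_assoc (aeval G s), ← hGdef, ← hcomm, ← Matrix.mul_assoc, hPG]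
        simp
      rw [Matrix.mul_sub, Matrix.mul_one] at h1
      exact (sub_eq_zero.mp h1).symm
    have e2 : (Pᴴ * P)ᴴ = Pᴴ * P := by
      rw [Matrix.conjTranspose_mul, Matrix.conjTranspose_conjTranspose]
    rw [e1, Matrix.conjTranspose_conjTranspose] at e2
    exact e2.symm
  refine ⟨P, ⟨hidem, hherm, hAP, _, hP1⟩, ?_⟩
  intro x
  -- trace of the projection
  have hi : mev x P * mev x P = mev x P := by rw [← mev_mul, hidem]
  rw [trace_eq_rank hi]
  congr 1
  have hk1 : (mev x A) * (mev x P) = 0 := by rw [← mev_mul, hAP]; rfl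
  -- rank P + rank A = card
  have hle : (mev x P).rank ≤ Fintype.card ι - r := by
    have h1 : (mev x A).rank + (mev x P).rank ≤ Fintype.card ι :=
      Matrix.rank_add_rank_le_card_of_mul_eq_zero hk1
    rw [h x] at h1
    omega
  have hge : Fintype.card ι ≤ r + (mev x P).rank := by
    obtain ⟨B, hB⟩ : ∃ B : Matrix ι κ (Sm n), 1 - P = B * A := ⟨_, hP1⟩
    have h1 : (1 : Matrix ι ι ℂ) = mev x B * mev x A + mev x P := by
      rw [← mev_mul, ← hB, mev_sub, mev_one]; abel
    have h2 : (1 : Matrix ι ι ℂ).rank ≤ (mev x B * mev x A).rank + (mev x P).rank := by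
      conv_lhs => rw [h1]
      exact mat_rank_add_le _ _
    rw [Matrix.rank_one] at h2
    have h3 : (mev x B * mev x A).rank ≤ (mev x A).rank := Matrix.rank_mul_le_right _ _
    rw [h x] at h3
    omega
  omega


omit [DecidableEq κ] in
/-- pointwise data of a kernel projection determine it -/
lemma IsKerProj.mev_eq {A : Matrix κ ι (Sm n)} {P : Matrix ι ι (Sm n)} (h : IsKerProj A P)
    {m : ℕ} {A' : Matrix κ ι (Sm m)} {P' : Matrix ι ι (Sm m)} (h' : IsKerProj A' P')
    {x : Fin n → ℝ} {y : Fin m → ℝ} (e : mev x A = mev y A') : mev x P = mev y P' := by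
  obtain ⟨B, hB⟩ := h.compl
  obtain ⟨B', hB'⟩ := h'.compl
  refine ker_unique (A := mev x A) (B := mev x B) (B' := mev y B') ?_ ?_ ?_ ?_ ?_ ?_
  · rw [← mev_conjTranspose, h.herm]
  · rw [← mev_conjTranspose, h'.herm]
  · rw [← mev_mul, h.ann]; rfl
  · rw [e, ← mev_mul, h'.ann]; rfl
  · rw [← mev_mul, ← hB, mev_sub, mev_one]
  · rw [e, ← mev_mul, ← hB', mev_sub, mev_one]

omit [DecidableEq κ] in
lemma IsKerProj.unique {A : Matrix κ ι (Sm n)} {P P' : Matrix ι ι (Sm n)}
    (h : IsKerProj A P) (h' : IsKerProj A P') : P = P' :=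
  mev_injective fun _ => h.mev_eq h' rfl

omit [DecidableEq κ] in
/-- restriction (or any other base change given by points) -/
lemma IsKerProj.map_restr {A : Matrix κ ι (Sm n)} {P : Matrix ι ι (Sm n)} (h : IsKerProj A P)
    {m : ℕ} (s : Fin m ↪ Fin n) : IsKerProj (A.map (Sm.restr s)) (P.map (Sm.restr s)) := by
  obtain ⟨B, hB⟩ := h.compl
  refine ⟨?_, ?_, ?_, B.map (Sm.restr s), ?_⟩
  · rw [← Matrix.map_mul, h.idem]
  · conv_rhs => rw [← h.herm]
    ext i j
    simp [Matrix.conjTranspose_apply, map_star]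
  · rw [← Matrix.map_mul, h.ann]
    exact Matrix.map_zero _ (map_zero _)
  · rw [← Matrix.map_mul, ← hB]
    have h1 : (1 : Matrix ι ι (Sm m)) = (1 : Matrix ι ι (Sm n)).map (Sm.restr s) :=
      (Matrix.map_one _ (map_zero _) (map_one _)).symm
    rw [h1]
    exact (Matrix.map_sub _ (map_sub _) _ _).symm

lemma map_conj_mul {a b c : Type*} [Fintype b] (U : Matrix a b ℂ) (V : Matrix b c ℂ) :
    (U * V).map (starRingEnd ℂ) = U.map (starRingEnd ℂ) * V.map (starRingEnd ℂ) :=
  Matrix.map_mul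

omit [DecidableEq κ] in
/-- the kernel projection of a Real matrix is Real -/
lemma IsKerProj.real {A : Matrix κ ι (Sm n)} {P : Matrix ι ι (Sm n)} (h : IsKerProj A P)
    (hA : MReal A) : MReal P := by
  apply real_of_mev
  intro x
  obtain ⟨B, hB⟩ := h.compl
  refine ker_unique (A := mev (-x) A) (B := mev (-x) B)
    (B' := (mev x B).map (starRingEnd ℂ)) ?_ ?_ ?_ ?_ ?_ ?_
  · rw [← mev_conjTranspose, h.herm]
  · have h1 : (mev x P)ᴴ = mev x P := by rw [← mev_conjTranspose, h.herm]
    ext i j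
    have := congrFun (congrFun h1 i) j
    simp only [Matrix.conjTranspose_apply, Matrix.map_apply] at this ⊢
    rw [← this]; simp
  · rw [← mev_mul, h.ann]; rfl
  · rw [mev_of_real hA, ← map_conj_mul, ← mev_mul, h.ann]
    exact Matrix.map_zero _ (map_zero _)
  · rw [← mev_mul, ← hB, mev_sub, mev_one]
  · rw [mev_of_real hA, ← map_conj_mul, ← mev_mul, ← hB, mev_sub, mev_one]
    have h1 : (1 : Matrix ι ι ℂ) = (1 : Matrix ι ι ℂ).map (starRingEnd ℂ) :=
      (Matrix.map_one _ (map_zero _) (map_one _)).symm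
    conv_lhs => rw [h1]
    exact (Matrix.map_sub _ (map_sub _) _ _).symm

omit [DecidableEq κ] in
/-- range projections exist for matrices of constant rank -/
theorem exists_ranProj (A : Matrix ι κ (Sm n)) (r : ℕ) (h : ∀ x, (mev x A).rank = r) :
    ∃ P, IsRanProj A P ∧ ∀ x, (mev x P).trace = (r : ℂ) := by
  have hr : ∀ x, (mev x Aᴴ).rank = r := by
    intro x
    rw [mev_conjTranspose, Matrix.rank_conjTranspose, h x]
  obtain ⟨P, hP, htr⟩ := exists_kerProj Aᴴ r hr
  obtain ⟨B, hB⟩ := hP.compl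
  have hle : r ≤ Fintype.card ι := by
    rw [← h 0]
    exact Matrix.rank_le_card_height _
  refine ⟨1 - P, ⟨?_, ?_, ?_, Bᴴ, ?_⟩, ?_⟩
  · rw [Matrix.sub_mul, Matrix.mul_sub, Matrix.mul_sub, Matrix.one_mul, Matrix.mul_one,
      Matrix.one_mul, hP.idem]; abel
  · rw [Matrix.conjTranspose_sub, Matrix.conjTranspose_one, hP.herm]
  · have h1 : P * A = 0 := by
      have := congrArg Matrix.conjTranspose hP.ann
      rw [Matrix.conjTranspose_mul, Matrix.conjTranspose_conjTranspose, hP.herm,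
        Matrix.conjTranspose_zero] at this
      exact this
    rw [Matrix.sub_mul, Matrix.one_mul, h1, sub_zero]
  · have := congrArg Matrix.conjTranspose hB
    rw [Matrix.conjTranspose_sub, Matrix.conjTranspose_one, hP.herm, Matrix.conjTranspose_mul,
      Matrix.conjTranspose_conjTranspose] at this
    exact this
  · intro x
    rw [mev_sub, mev_one, Matrix.trace_sub, Matrix.trace_one, htr x, Nat.cast_sub hle]
    ring

/-- **Murray–von Neumann equivalence from a fibrewise isomorphism** -/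
theorem mvn_of_pointwise {p : Matrix κ κ (Sm n)} {q : Matrix ι ι (Sm n)}
    {X : Matrix κ ι (Sm n)} (hp : p * p = p) (hp' : pᴴ = p) (hq : q * q = q) (hq' : qᴴ = q)
    (h1 : p * X = X) (h2 : X * q = X)
    (hinj : ∀ x v, mev x q *ᵥ v = v → mev x X *ᵥ v = 0 → v = 0)
    (htr : ∀ x, (mev x p).trace = (mev x q).trace) :
    ∃ Y : Matrix ι κ (Sm n), q * Y = Y ∧ Y * p = Y ∧ Y * X = q ∧ X * Y = p := by
  have h2' : q * Xᴴ = Xᴴ := by
    have := congrArg Matrix.conjTranspose h2
    rw [Matrix.conjTranspose_mul, hq'] at this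
    exact this
  have h1' : Xᴴ * p = Xᴴ := by
    have := congrArg Matrix.conjTranspose h1
    rw [Matrix.conjTranspose_mul, hp'] at this
    exact this
  set Z : Matrix ι ι (Sm n) := Xᴴ * X + (1 - q) with hZ
  have hqZ : (1 - q) * Z = 1 - q := by
    rw [hZ, Matrix.mul_add, ← Matrix.mul_assoc, Matrix.sub_mul 1 q Xᴴ, h2', Matrix.one_mul,
      sub_self, Matrix.zero_mul, zero_add, Matrix.sub_mul, Matrix.one_mul, Matrix.mul_sub,
      Matrix.mul_one, hq, sub_self, sub_zero]
  have hZq : Z * (1 - q) = 1 - q := by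
    rw [hZ, Matrix.add_mul, Matrix.mul_assoc, Matrix.mul_sub X 1 q, h2, Matrix.mul_one,
      sub_self, Matrix.mul_zero, zero_add, Matrix.sub_mul, Matrix.one_mul, Matrix.mul_sub,
      Matrix.mul_one, hq, sub_self, sub_zero]
  have hZh : Zᴴ = Z := by
    rw [hZ, Matrix.conjTranspose_add, Matrix.conjTranspose_mul,
      Matrix.conjTranspose_conjTranspose, Matrix.conjTranspose_sub, Matrix.conjTranspose_one, hq']
  have hunit : IsUnit Z := by
    apply isUnit_of_pointwise
    intro x
    rw [← Matrix.mulVec_injective_iff_isUnit]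
    rw [← Matrix.coe_mulVecLin, ← LinearMap.ker_eq_bot, LinearMap.ker_eq_bot']
    intro v hv
    rw [Matrix.mulVecLin_apply] at hv
    have e1 : mev x (1 - q) *ᵥ v = 0 := by
      rw [← hqZ, mev_mul, ← Matrix.mulVec_mulVec, hv, Matrix.mulVec_zero]
    have e2 : mev x q *ᵥ v = v := by
      rw [mev_sub, mev_one, Matrix.sub_mulVec, Matrix.one_mulVec] at e1
      exact (sub_eq_zero.mp e1).symm
    have e3 : (mev x X)ᴴ *ᵥ (mev x X *ᵥ v) = 0 := by
      have : mev x Z *ᵥ v = (mev x X)ᴴ *ᵥ (mev x X *ᵥ v) + mev x (1 - q) *ᵥ v := by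
        rw [hZ, mev_add, mev_mul, mev_conjTranspose, Matrix.add_mulVec, Matrix.mulVec_mulVec]
      rw [hv, e1, add_zero] at this
      exact this.symm
    refine hinj x v e2 ?_
    rw [Matrix.mulVec_mulVec, Matrix.conjTranspose_mul_self_mulVec_eq_zero] at e3
    exact e3
  obtain ⟨u, hu⟩ := hunit
  have hu1 : ((u⁻¹ : (Matrix ι ι (Sm n))ˣ) : Matrix ι ι (Sm n)) * Z = 1 := by
    rw [← hu]; exact Units.inv_mul u
  have hu2 : Z * ((u⁻¹ : (Matrix ι ι (Sm n))ˣ) : Matrix ι ι (Sm n)) = 1 := by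
    rw [← hu]; exact Units.mul_inv u
  set W := ((u⁻¹ : (Matrix ι ι (Sm n))ˣ) : Matrix ι ι (Sm n)) with hW
  have hWq : W * (1 - q) = 1 - q := by
    conv_lhs => rw [← hZq]
    rw [← Matrix.mul_assoc, hu1, Matrix.one_mul]
  have hqW : (1 - q) * W = 1 - q := by
    conv_lhs => rw [← hqZ]
    rw [Matrix.mul_assoc, hu2, Matrix.mul_one]
  have hWq2 : W * q = q * W := by
    rw [Matrix.mul_sub, Matrix.mul_one] at hWq
    rw [Matrix.sub_mul, Matrix.one_mul] at hqW
    have := hWq.trans hqW.symm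
    have h3 : W * q = W - (W - W * q) := by abel
    rw [h3, this]; abel
  have hWh : Wᴴ = W := by
    have h3 : Wᴴ * Z = 1 := by
      have := congrArg Matrix.conjTranspose hu2
      rw [Matrix.conjTranspose_mul, hZh, Matrix.conjTranspose_one] at this
      exact this
    calc Wᴴ = Wᴴ * (Z * W) := by rw [hu2, Matrix.mul_one]
      _ = W := by rw [← Matrix.mul_assoc, h3, Matrix.one_mul]
  have hYX : W * Xᴴ * X = q := by
    have h3 : Xᴴ * X = Z - (1 - q) := by rw [hZ]; abel
    rw [Matrix.mul_assoc, h3, Matrix.mul_sub, hu1, hWq]; abel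
  refine ⟨W * Xᴴ, ?_, ?_, hYX, ?_⟩
  · rw [← Matrix.mul_assoc, ← hWq2, Matrix.mul_assoc, h2']
  · rw [Matrix.mul_assoc, h1']
  · -- `X W Xᴴ = p`
    set E := X * (W * Xᴴ) with hE
    have hEh : Eᴴ = E := by
      rw [hE, Matrix.conjTranspose_mul, Matrix.conjTranspose_mul,
        Matrix.conjTranspose_conjTranspose, hWh, Matrix.mul_assoc]
    have hE2 : E * E = E := by
      calc E * E = X * ((W * Xᴴ * X) * (W * Xᴴ)) := by rw [hE]; simp only [Matrix.mul_assoc]
        _ = (X * q) * (W * Xᴴ) := by rw [hYX]; simp only [Matrix.mul_assoc]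
        _ = E := by rw [h2]
    have hpE : p * E = E := by rw [hE, ← Matrix.mul_assoc, h1]
    have hEp : E * p = E := by
      have := congrArg Matrix.conjTranspose hpE
      rw [Matrix.conjTranspose_mul, hEh, hp'] at this
      exact this
    have hF : (p - E) * (p - E) = p - E := by
      rw [Matrix.sub_mul, Matrix.mul_sub, Matrix.mul_sub, hp, hpE, hEp, hE2]; abel
    have : p - E = 0 := mev_injective fun x => by
      have hFx : mev x (p - E) * mev x (p - E) = mev x (p - E) := by rw [← mev_mul, hF]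
      have ht : (mev x (p - E)).trace = 0 := by
        rw [mev_sub, Matrix.trace_sub, htr x, hE, mev_mul, Matrix.trace_mul_comm, ← mev_mul, hYX,
          sub_self]
      rw [trace_eq_rank hFx, Nat.cast_eq_zero] at ht
      exact mat_rank_eq_zero ht
    exact (sub_eq_zero.mp this).symm

end algebra

section negative

open Pool.Agent.H95.PD

omit [DecidableEq κ] in
lemma negP_quadratic_neg {N : Matrix ι ι ℂ} (hN : N.IsHermitian) (hd : N.det ≠ 0)
    {v : ι → ℂ} (hv : negP N *ᵥ v = v) (h0 : v ≠ 0) : star v ⬝ᵥ (N *ᵥ v) < 0 := by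
  have h1 : N *ᵥ v = - (absM N *ᵥ v) := by
    conv_lhs => rw [← polar hN hd]
    rw [← Matrix.mulVec_mulVec, Matrix.sub_mulVec, Matrix.one_mulVec, Matrix.smul_mulVec, hv]
    have : v - (2 : ℂ) • v = -v := by rw [two_smul]; abel
    rw [this, Matrix.mulVec_neg]
  rw [h1, dotProduct_neg]
  exact neg_neg_of_pos ((absM_posDef hN hd).dotProduct_mulVec_pos h0)

lemma negP_quadratic_nonneg {N : Matrix ι ι ℂ} (hN : N.IsHermitian) (hd : N.det ≠ 0)
    {v : ι → ℂ} (hv : negP N *ᵥ v = 0) : 0 ≤ star v ⬝ᵥ (N *ᵥ v) := by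
  have h1 : N *ᵥ v = absM N *ᵥ v := by
    conv_lhs => rw [← polar hN hd]
    rw [← Matrix.mulVec_mulVec, Matrix.sub_mulVec, Matrix.one_mulVec, Matrix.smul_mulVec, hv,
      smul_zero, sub_zero]
  rw [h1]
  exact (absM_posDef hN hd).posSemidef.dotProduct_mulVec_nonneg v

/-- if `N = Rᴴ M R`, the negative space of `N` injects into the negative space of `M` -/
lemma negP_inj {M : Matrix κ κ ℂ} {N : Matrix ι ι ℂ} {R : Matrix κ ι ℂ}
    (hM : M.IsHermitian) (hdM : M.det ≠ 0) (hN : N.IsHermitian) (hdN : N.det ≠ 0)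
    (h : Rᴴ * M * R = N) {v : ι → ℂ} (hv : negP N *ᵥ v = v)
    (hw : negP M *ᵥ (R *ᵥ v) = 0) : v = 0 := by
  by_contra h0
  have h1 := negP_quadratic_neg hN hdN hv h0
  have h2 := negP_quadratic_nonneg hM hdM hw
  have h3 : star v ⬝ᵥ (N *ᵥ v) = star (R *ᵥ v) ⬝ᵥ (M *ᵥ (R *ᵥ v)) := by
    rw [← h, Matrix.star_mulVec, ← Matrix.mulVec_mulVec, ← Matrix.mulVec_mulVec,
      Matrix.dotProduct_mulVec, Matrix.dotProduct_mulVec, ← Matrix.dotProduct_mulVec]
  rw [h3] at h1
  exact absurd h2 (not_le_of_gt h1)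

end negative

end Pool.Agent.PD4
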