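import Mathlib

/-!
Smoothness of the square root and of the sign of matrix functions (helper95).
-/

open Matrix
open scoped ComplexOrder MatrixOrder Matrix.Norms.L2Operator ContDiff Topology

namespace Pool.Agent.H95.PD

variable {m : Type*} [Fintype m] [DecidableEq m]

/-- Sylvester equation with a positive definite coefficient: only the zero solution. -/
theorem sylvester_zero {X V : Matrix m m ℂ} (hX : X.PosDef) (h : X * V + V * X = 0) :
    V = 0 := by
  have h1 : (Vᴴ * X * V).PosSemidef := hX.posSemidef.conjTranspose_mul_mul_same V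
  have h2 : (V * X * Vᴴ).PosSemidef := hX.posSemidef.mul_mul_conjTranspose_same V
  have h3 : (Vᴴ * X * V).trace + (V * X * Vᴴ).trace = 0 := by
    have : (V * X * Vᴴ).trace = (Vᴴ * (V * X)).trace := by
      rw [Matrix.trace_mul_comm]
    rw [this, ← Matrix.trace_add, Matrix.mul_assoc, ← Matrix.mul_add, h]
    simp
  have h4 := h1.trace_nonneg
  have h5 := h2.trace_nonneg
  have h6 : (Vᴴ * X * V).trace = 0 := by
    have : (Vᴴ * X * V).trace = -(V * X * Vᴴ).trace := eq_neg_of_add_eq_zero_left h3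
    exact le_antisymm (by rw [this]; exact neg_nonpos.mpr h5) h4
  have h7 : Vᴴ * X * V = 0 := h1.trace_eq_zero_iff.mp h6
  by_contra hV
  obtain ⟨i, j, hij⟩ : ∃ i j, V i j ≠ 0 := by
    by_contra hcon
    push Not at hcon
    exact hV (by ext i j; simpa using hcon i j)
  have h8 : star (V.col j) ⬝ᵥ X *ᵥ (V.col j) = (Vᴴ * X * V) j j := by
    simp only [Matrix.mul_apply, dotProduct, Matrix.mulVec, Matrix.col, Matrix.conjTranspose_apply,
      Pi.star_apply, Finset.sum_mul, Finset.mul_sum, Matrix.transpose_apply]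
    rw [Finset.sum_comm]
    refine Finset.sum_congr rfl fun a _ => Finset.sum_congr rfl fun b _ => ?_
    ring
  have h9 := hX.dotProduct_mulVec_pos (x := V.col j) (by
    intro h0
    exact hij (by simpa [Matrix.col] using congrFun h0 i))
  rw [h8, h7] at h9
  simp at h9

/-- the derivative of the square map, as a continuous linear map -/
noncomputable def sqD (X : Matrix m m ℂ) : Matrix m m ℂ →L[ℝ] Matrix m m ℂ :=
  (ContinuousLinearMap.mul ℝ (Matrix m m ℂ) X) +
    (ContinuousLinearMap.mul ℝ (Matrix m m ℂ)).flip X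

theorem sqD_apply (X V : Matrix m m ℂ) : sqD X V = X * V + V * X := by
  simp [sqD]

theorem sq_hasFDerivAt (X : Matrix m m ℂ) :
    HasFDerivAt (fun Y : Matrix m m ℂ => Y * Y) (sqD X) X := by
  have := (hasFDerivAt_id (𝕜 := ℝ) X).mul' (hasFDerivAt_id (𝕜 := ℝ) X)
  refine this.congr_fderiv ?_
  ext V
  simp [sqD_apply]

theorem sqD_bijective {X : Matrix m m ℂ} (hX : X.PosDef) :
    Function.Bijective (sqD X) := by
  have hinj : Function.Injective (sqD X).toLinearMap := by
    rw [injective_iff_map_eq_zero]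
    intro V hV
    exact sylvester_zero hX (by simpa [sqD_apply] using hV)
  exact ⟨hinj, LinearMap.surjective_of_injective hinj⟩

/-- Smoothness of the square root at a point, along a smooth family of positive definite
matrices. -/
theorem sqrt_contDiffAt {E : Type*} [NormedAddCommGroup E] [NormedSpace ℝ E]
    {A : E → Matrix m m ℂ} (hA : ContDiff ℝ ∞ A) (hp : ∀ x, (A x).PosDef) (x₀ : E) :
    ContDiffAt ℝ ∞ (fun x => CFC.sqrt (A x)) x₀ := by
  set X₀ := CFC.sqrt (A x₀) with hX₀
  have hsq : ∀ x, CFC.sqrt (A x) * CFC.sqrt (A x) = A x := fun x =>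
    CFC.sqrt_mul_sqrt_self (A x) (hp x).posSemidef.nonneg
  have hpos : X₀.PosDef := by
    have h1 : X₀.PosSemidef := (CFC.sqrt_nonneg (A x₀)).posSemidef
    refine (h1.posDef_iff_det_ne_zero).mpr ?_
    intro h0
    have h2 : (A x₀).det ≠ 0 := (hp x₀).det_pos.ne'
    apply h2
    rw [← hsq x₀, Matrix.det_mul, ← hX₀, h0, zero_mul]
  let e : Matrix m m ℂ ≃L[ℝ] Matrix m m ℂ :=
    ContinuousLinearEquiv.ofBijective (sqD X₀)
      (LinearMap.ker_eq_bot.mpr (sqD_bijective hpos).1)
      (LinearMap.range_eq_top.mpr (sqD_bijective hpos).2)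
  have hF : ContDiffAt ℝ ∞ (fun Y : Matrix m m ℂ => Y * Y) X₀ :=
    (contDiff_id.mul contDiff_id).contDiffAt
  have hF' : HasFDerivAt (fun Y : Matrix m m ℂ => Y * Y)
      (e : Matrix m m ℂ →L[ℝ] Matrix m m ℂ) X₀ := by
    have : (e : Matrix m m ℂ →L[ℝ] Matrix m m ℂ) = sqD X₀ := by
      ext V
      rfl
    rw [this]
    exact sq_hasFDerivAt X₀
  have hn : (∞ : WithTop ℕ∞) ≠ 0 := by simp
  have hinv := hF.to_localInverse hF' hn
  have hs := hF.hasStrictFDerivAt' hF' hn
  have hlft := hs.eventually_left_inverse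
  have hcont : ContinuousAt (fun x => CFC.sqrt (A x)) x₀ := by
    have h1 : Continuous (fun x => cfc NNReal.sqrt (A x)) :=
      Continuous.cfc_nnreal_of_mem_nhdsSet (s := Set.univ) NNReal.sqrt
        Filter.univ_mem hA.continuous (fun x => (hp x).posSemidef.nonneg)
        NNReal.continuous_sqrt.continuousOn
    have h2 : (fun x => CFC.sqrt (A x)) = fun x => cfc NNReal.sqrt (A x) := by
      funext x
      exact CFC.sqrt_eq_cfc
    rw [h2]
    exact h1.continuousAt
  have hev : (fun x => CFC.sqrt (A x)) =ᶠ[𝓝 x₀]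
      fun x => hF.localInverse hF' hn (A x) := by
    have := hcont.eventually hlft
    filter_upwards [this] with x hx
    have h3 : hF.localInverse hF' hn (CFC.sqrt (A x) * CFC.sqrt (A x)) = CFC.sqrt (A x) := hx
    rw [hsq x] at h3
    exact h3.symm
  refine ContDiffAt.congr_of_eventuallyEq ?_ hev
  have h5 : ContDiffAt ℝ ∞ (hF.localInverse hF' hn) (A x₀) := by
    have h7 : X₀ * X₀ = A x₀ := hsq x₀
    rw [← h7]
    exact hinv
  exact h5.comp x₀ hA.contDiffAt

end Pool.Agent.H95.PD
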